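import Mathlib

/-!
# The (2,2)-shadowing property passes to the inverse of a closed relation containing the diagonal
-/

open Filter Topology Set Uniformity

namespace Pool.Agent.Results.MP_c44e76_an.InverseShadowing22

/-- The inverse relation. -/
def inv {X : Type*} (G : Set (X × X)) : Set (X × X) := {p | (p.2, p.1) ∈ G}

/-- The domain `D(G)`. -/
def dom {X : Type*} (G : Set (X × X)) : Set X := {x | ∃ y, (x, y) ∈ G}

/-- `z` is a trajectory of `x`. -/
def IsTrajectory {X : Type*} (G : Set (X × X)) (x : X) (z : ℕ → X) : Prop :=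
  z 0 = x ∧ ∀ n, (z n, z (n + 1)) ∈ G

/-- `x` is legal. -/
def Legal {X : Type*} (G : Set (X × X)) (x : X) : Prop := ∃ z, IsTrajectory G x z

/-- `(V,2)`-pseudo-orbits. -/
def PseudoOrbit2 {X : Type*} (G V : Set (X × X)) (x : ℕ → X) : Prop :=
  (∀ n, x n ∈ dom G) ∧ ∀ n, ∃ y, (x n, y) ∈ G ∧ (x (n + 1), y) ∈ V

/-- The point `y` `(U,2)`-shadows the sequence `x`. -/
def Shadows2 {X : Type*} (G U : Set (X × X)) (y : X) (x : ℕ → X) : Prop :=
  ∃ z, IsTrajectory G y z ∧ ∀ n, (x n, z n) ∈ U

/-- The `(2,2)`-shadowing property. -/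
def Shadowing22 {X : Type*} [UniformSpace X] (G : Set (X × X)) : Prop :=
  ∀ U ∈ 𝓤 X, ∃ V ∈ 𝓤 X, ∀ x : ℕ → X, PseudoOrbit2 G V x →
    ∃ y, Legal G y ∧ Shadows2 G U y x

theorem result {X : Type*} [Nonempty X] [UniformSpace X] [CompactSpace X] [T2Space X]
    (G : Set (X × X)) (hne : G.Nonempty) (hG : IsClosed G) (hdiag : ∀ x, (x, x) ∈ G)
    (h22 : Shadowing22 G) : Shadowing22 (inv G) := by
  intro U hU
  obtain ⟨C, ⟨hC, hCcl⟩, hCU⟩ := uniformity_hasBasis_closed.mem_iff.1 hU
  obtain ⟨W, hW, hWC⟩ := comp_mem_uniformity_sets hC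
  obtain ⟨V', hV', hsh⟩ := h22 W hW
  refine ⟨W ∩ Prod.swap ⁻¹' V', inter_mem hW (tendsto_swap_uniformity hV'), ?_⟩
  rintro x ⟨hxdom, hx⟩
  choose y hyG hyV using hx
  -- finite approximations
  have hfin : ∀ N : ℕ, ∃ w : ℕ → X, (∀ j, j ≤ N → (w (j + 1), w j) ∈ G) ∧
      ∀ j, j ≤ N + 1 → (x j, w j) ∈ C := by
    intro N
    let a : ℕ → X := fun k => if k ≤ N then y (N - k) else x 0
    have ha : PseudoOrbit2 G V' a := by
      constructor
      · intro n
        exact ⟨a n, hdiag _⟩
      · intro k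
        rcases lt_trichotomy k N with hk | hk | hk
        · refine ⟨x (N - k), ?_, ?_⟩
          · simp only [a, if_pos hk.le]
            exact hyG (N - k)
          · have h1 : k + 1 ≤ N := hk
            simp only [a, if_pos h1]
            have h2 := (hyV (N - (k + 1))).2
            have h3 : N - (k + 1) + 1 = N - k := by omega
            rw [h3] at h2
            exact h2
        · refine ⟨x 0, ?_, ?_⟩
          · simp only [a, hk, le_refl, if_true, Nat.sub_self]
            exact hyG 0
          · have h1 : ¬ (k + 1 ≤ N) := by omega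
            simp only [a, if_neg h1]
            exact refl_mem_uniformity hV'
        · refine ⟨x 0, ?_, ?_⟩
          · have h1 : ¬ (k ≤ N) := by omega
            simp only [a, if_neg h1]
            exact hdiag _
          · have h1 : ¬ (k + 1 ≤ N) := by omega
            simp only [a, if_neg h1]
            exact refl_mem_uniformity hV'
    obtain ⟨_, -, z, ⟨-, hz⟩, hzs⟩ := hsh a ha
    refine ⟨fun j => z (N + 1 - j), ?_, ?_⟩
    · intro j hj
      have h1 := hz (N - j)
      have h2 : N + 1 - (j + 1) = N - j := by omega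
      have h3 : N + 1 - j = N - j + 1 := by omega
      simp only [h2, h3]
      exact h1
    · intro j hj
      rcases Nat.eq_zero_or_pos j with h0 | h0
      · subst h0
        have h1 := hzs (N + 1)
        have h2 : ¬ (N + 1 ≤ N) := by omega
        simp only [a, if_neg h2] at h1
        exact hWC ⟨x 0, refl_mem_uniformity hW, h1⟩
      · have h1 := hzs (N + 1 - j)
        have h2 : N + 1 - j ≤ N := by omega
        have h3 : N - (N + 1 - j) = j - 1 := by omega
        simp only [a, if_pos h2, h3] at h1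
        have h4 := (hyV (j - 1)).1
        have h5 : j - 1 + 1 = j := by omega
        rw [h5] at h4
        exact hWC ⟨y (j - 1), h4, h1⟩
  -- compactness
  let K : ℕ → Set (ℕ → X) := fun N => {w | (∀ j, j ≤ N → (w (j + 1), w j) ∈ G) ∧
      ∀ j, j ≤ N + 1 → (x j, w j) ∈ C}
  have hKcl : ∀ N, IsClosed (K N) := by
    intro N
    have : K N = (⋂ j, ⋂ (_ : j ≤ N), {w | (w (j + 1), w j) ∈ G}) ∩
        (⋂ j, ⋂ (_ : j ≤ N + 1), {w | (x j, w j) ∈ C}) := by
      ext w
      simp [K]
    rw [this]
    apply IsClosed.inter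
    · refine isClosed_iInter fun j => isClosed_iInter fun _ => ?_
      exact hG.preimage (by fun_prop)
    · refine isClosed_iInter fun j => isClosed_iInter fun _ => ?_
      exact hCcl.preimage (by fun_prop)
  have hKne : (⋂ N, K N).Nonempty := by
    apply IsCompact.nonempty_iInter_of_sequence_nonempty_isCompact_isClosed K
    · intro N w hw
      exact ⟨fun j hj => hw.1 j (by omega), fun j hj => hw.2 j (by omega)⟩
    · exact fun N => hfin N
    · exact (hKcl 0).isCompact
    · exact hKcl
  obtain ⟨w, hw⟩ := hKne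
  rw [mem_iInter] at hw
  have htraj : IsTrajectory (inv G) (w 0) w := ⟨rfl, fun n => (hw n).1 n le_rfl⟩
  exact ⟨w 0, ⟨w, htraj⟩, w, htraj, fun n => hCU ((hw n).2 n (by omega))⟩

end Pool.Agent.Results.MP_c44e76_an.InverseShadowing22
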